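import Pool.Agent.H.MP_4104ad_al.Main
import Pool.Agent.H.MP_4104ad_al.Sanity

set_option autoImplicit false

universe u

namespace Pool.Agent.Results.MP_4104ad_al.ExtClosure

open Pool.Agent.H.MP_4104ad_al

/-- For every commutative noetherian ring `R`, every ideal `I` and every `R`-module `M`:
`M` lies in `ext_R (C_I(R))` if and only if `M` lies in `C_{V(I)}(R)`. -/
theorem result : ∀ (R : Type u) [CommRing R] [IsNoetherianRing R] (I : Ideal R)
    (M : ModuleCat.{u} R), InExt R (InCI R I) M ↔ InCV R I M :=
  fun _ _ _ _ M => main M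

end Pool.Agent.Results.MP_4104ad_al.ExtClosure
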